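import Pool.Agent.R122.Ent.Main

namespace Pool.Agent.Results.MP_8f0a23_co.NotAnalytic

open Pool.Agent.R122.Ent

/-- **The entropy function need not be analytic (negative answer to Q1).**
For the list `W = (10, 01, 110)` of distinct binary words there is a point `δ` in the interior of
the feasibility set `E_W` at which the entropy function `s_W` is not differentiable; in particular
it is not real-analytic on any neighbourhood of `δ`.

Idea: on the line `ρ_10 = ρ_01 = p(1-p)`, `p = 49/100`, the total mass is `p` or `1-p`.  Each of the
two branches has its own entropy, with maximum `S(p)` at the constant density; the first branch is
nonincreasing and the second one grows at least linearly between the two maxima, so that the maximum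
of the two has a corner where they cross. -/
theorem result :
    Function.Injective (![[true, false], [false, true], [true, true, false]] :
      Fin 3 → List Bool) ∧
    ∃ δ ∈ interior (feasibleSet (![[true, false], [false, true], [true, true, false]] :
      Fin 3 → List Bool)),
      ¬ DifferentiableAt ℝ (entropyFn (![[true, false], [false, true], [true, true, false]] :
        Fin 3 → List Bool)) δ ∧
      ¬ AnalyticAt ℝ (entropyFn (![[true, false], [false, true], [true, true, false]] :
        Fin 3 → List Bool)) δ := by
  obtain ⟨h1, δ, h2, h3⟩ := main
  exact ⟨h1, δ, h2, h3, fun h => h3 h.differentiableAt⟩

end Pool.Agent.Results.MP_8f0a23_co.NotAnalytic
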